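import Mathlib

/-!
# Character sums over intervals of `ZMod Q`
-/

set_option autoImplicit false

namespace Pool.Agent.V8H61.LD

open Finset

section

variable {Q : ℕ} [NeZero Q]

theorem sum_val {M : Type} [AddCommMonoid M] (f : ℕ → M) :
    ∑ y : ZMod Q, f y.val = ∑ j ∈ range Q, f j := by
  obtain ⟨n, rfl⟩ : ∃ n, Q = n + 1 := ⟨Q - 1, by have := NeZero.pos Q; omega⟩
  exact Fin.sum_univ_eq_sum_range f (n + 1)

theorem norm_E (x : ZMod Q) : ‖(ZMod.stdAddChar x : ℂ)‖ = 1 := by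
  rw [ZMod.stdAddChar_apply]
  exact Circle.norm_coe _

theorem E_real (k : ℤ) : (ZMod.stdAddChar (k : ZMod Q) : ℂ) =
    Complex.exp (Complex.I * ((2 * Real.pi * k / Q : ℝ) : ℂ)) := by
  rw [ZMod.stdAddChar_coe]
  congr 1
  push_cast
  ring

theorem E_lo (k : ℤ) (hk : 2 * |(k : ℝ)| ≤ Q) :
    4 * |(k : ℝ)| / Q ≤ ‖(ZMod.stdAddChar (k : ZMod Q) : ℂ) - 1‖ := by
  have hQ : (0 : ℝ) < Q := Nat.cast_pos.2 (NeZero.pos Q)
  rw [E_real, Complex.norm_exp_I_mul_ofReal_sub_one, norm_mul, Real.norm_eq_abs, Real.norm_eq_abs,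
    abs_of_pos (zero_lt_two : (0 : ℝ) < 2)]
  have e : |2 * Real.pi * k / Q / 2| = Real.pi * |(k : ℝ)| / Q := by
    rw [abs_div, abs_div, abs_mul, abs_mul, abs_of_pos hQ, abs_of_pos Real.pi_pos,
      abs_of_pos (zero_lt_two : (0 : ℝ) < 2)]
    ring
  have h1 : |2 * Real.pi * k / Q / 2| ≤ Real.pi / 2 := by
    rw [e, div_le_div_iff₀ hQ zero_lt_two]
    nlinarith [Real.pi_pos]
  have h2 := Real.mul_abs_le_abs_sin h1
  rw [e] at h2
  have e2 : 2 / Real.pi * (Real.pi * |(k : ℝ)| / Q) = 2 * |(k : ℝ)| / Q := by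
    field_simp
  rw [e2] at h2
  have e3 : 4 * |(k : ℝ)| / Q = 2 * (2 * |(k : ℝ)| / Q) := by ring
  rw [e3]
  exact mul_le_mul_of_nonneg_left h2 zero_le_two

theorem E_hi (k : ℤ) : ‖(ZMod.stdAddChar (k : ZMod Q) : ℂ) - 1‖ ≤ 2 * Real.pi * |(k : ℝ)| / Q := by
  have hQ : (0 : ℝ) < Q := Nat.cast_pos.2 (NeZero.pos Q)
  rw [E_real]
  refine Real.norm_exp_I_mul_ofReal_sub_one_le.trans (le_of_eq ?_)
  rw [Real.norm_eq_abs, abs_div, abs_mul, abs_mul, abs_of_pos hQ, abs_of_pos Real.pi_pos,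
      abs_of_pos (zero_lt_two : (0 : ℝ) < 2)]

/-- the character sum over an interval -/
noncomputable def S (Q : ℕ) [NeZero Q] (t : ℕ) (k : ℤ) : ℂ :=
  ∑ y : ZMod Q, if y.val < t then ZMod.stdAddChar (-((k : ZMod Q) * y)) else 0

theorem S_eq (t : ℕ) (ht : t ≤ Q) (k : ℤ) :
    S Q t k = ∑ j ∈ range t, (ZMod.stdAddChar ((-k : ℤ) : ZMod Q) : ℂ) ^ j := by
  have h1 : ∀ y : ZMod Q, (if y.val < t then ZMod.stdAddChar (-((k : ZMod Q) * y)) else 0 : ℂ) =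
      (fun j : ℕ => if j < t then (ZMod.stdAddChar ((-k : ℤ) : ZMod Q) : ℂ) ^ j else 0) y.val := by
    intro y
    simp only
    congr 1
    rw [← AddChar.map_nsmul_eq_pow]
    congr 1
    rw [nsmul_eq_mul, ZMod.natCast_zmod_val]
    push_cast
    ring
  unfold S
  simp only [h1]
  rw [sum_val (Q := Q) (fun j : ℕ => if j < t then
    (ZMod.stdAddChar ((-k : ℤ) : ZMod Q) : ℂ) ^ j else 0), ← Finset.sum_filter]
  congr 1
  ext j
  simp only [Finset.mem_filter, Finset.mem_range]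
  omega

theorem S_geom (t : ℕ) (ht : t ≤ Q) (k : ℤ) :
    S Q t k * ((ZMod.stdAddChar ((-k : ℤ) : ZMod Q) : ℂ) - 1) =
      (ZMod.stdAddChar ((-k : ℤ) : ZMod Q) : ℂ) ^ t - 1 := by
  rw [S_eq t ht, geom_sum_mul]

theorem S_zero (t : ℕ) (ht : t ≤ Q) : S Q t 0 = t := by
  rw [S_eq t ht]
  simp

theorem S_neg (t : ℕ) (k : ℤ) : S Q t (-k) = (starRingEnd ℂ) (S Q t k) := by
  unfold S
  rw [map_sum]
  refine Finset.sum_congr rfl fun y _ => ?_
  split_ifs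
  · have h1 : (starRingEnd ℂ) (ZMod.stdAddChar (-((k : ZMod Q) * y)) : ℂ) =
        (ZMod.stdAddChar (-((k : ZMod Q) * y)) : ℂ)⁻¹ := by
      rw [Complex.inv_def, Complex.normSq_eq_norm_sq, norm_E]
      simp
    rw [h1, ← AddChar.map_neg_eq_inv]
    congr 1
    push_cast
    ring
  · simp

theorem S_hi (t : ℕ) (ht : t ≤ Q) (k : ℤ) (hk0 : k ≠ 0) (hk : 2 * |(k : ℝ)| ≤ Q) :
    ‖S Q t k‖ ≤ Q / (2 * |(k : ℝ)|) := by
  have hQ : (0 : ℝ) < Q := Nat.cast_pos.2 (NeZero.pos Q)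
  have hk' : 0 < |(k : ℝ)| := abs_pos.2 (Int.cast_ne_zero.2 hk0)
  have h1 := congrArg norm (S_geom t ht k)
  rw [norm_mul] at h1
  have h2 : ‖(ZMod.stdAddChar ((-k : ℤ) : ZMod Q) : ℂ) ^ t - 1‖ ≤ 2 := by
    refine (norm_sub_le _ _).trans ?_
    rw [norm_pow, norm_E, one_pow, norm_one]
    norm_num
  have h3 := E_lo (Q := Q) (-k) (by push_cast; rw [abs_neg]; exact hk)
  push_cast at h3
  rw [abs_neg] at h3
  rw [le_div_iff₀ (by positivity)]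
  have h4 : ‖S Q t k‖ * (4 * |(k : ℝ)| / Q) ≤ 2 := by
    refine le_trans (mul_le_mul_of_nonneg_left ?_ (norm_nonneg _)) (h1.le.trans h2)
    push_cast
    exact h3
  have h5 : ‖S Q t k‖ * (2 * |(k : ℝ)|) = ‖S Q t k‖ * (4 * |(k : ℝ)| / Q) * (Q / 2) := by
    field_simp
    ring
  rw [h5]
  nlinarith

theorem norm_sub_one_sq {z : ℂ} (hz : ‖z‖ = 1) : ‖z - 1‖ ^ 2 = 2 - 2 * z.re := by
  have h1 : z.re ^ 2 + z.im ^ 2 = 1 := by
    have h2 := Complex.sq_norm z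
    rw [hz, Complex.normSq_apply] at h2
    nlinarith
  rw [Complex.sq_norm, Complex.normSq_apply]
  simp only [Complex.sub_re, Complex.sub_im, Complex.one_re, Complex.one_im]
  nlinarith

theorem sum_S (k : ℤ) (hk0 : k ≠ 0) (hk : 2 * |(k : ℝ)| ≤ Q) :
    (Q : ℝ) * (Q / (2 * Real.pi * |(k : ℝ)|)) ≤ ∑ t ∈ range Q, ‖S Q t k‖ := by
  have hQ : (0 : ℝ) < Q := Nat.cast_pos.2 (NeZero.pos Q)
  have hk' : 0 < |(k : ℝ)| := abs_pos.2 (Int.cast_ne_zero.2 hk0)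
  obtain ⟨w, hw⟩ : ∃ w : ℂ, w = (ZMod.stdAddChar ((-k : ℤ) : ZMod Q) : ℂ) := ⟨_, rfl⟩
  have hw1 : ‖w‖ = 1 := by rw [hw]; exact norm_E _
  have h3 := E_lo (Q := Q) (-k) (by push_cast; rw [abs_neg]; exact hk)
  have h4 := E_hi (Q := Q) (-k)
  rw [← hw] at h3 h4
  push_cast at h3 h4
  rw [abs_neg] at h3 h4
  have h5 : 0 < ‖w - 1‖ := lt_of_lt_of_le (by positivity) h3
  have hwne : w ≠ 1 := by
    intro h
    rw [h, sub_self, norm_zero] at h5
    exact lt_irrefl _ h5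
  have hwQ : w ^ Q = 1 := by
    rw [hw, ← AddChar.map_nsmul_eq_pow, nsmul_eq_mul, ZMod.natCast_self, zero_mul,
      AddChar.map_zero_eq_one]
  have hsum : ∑ t ∈ range Q, w ^ t = 0 := by
    have h6 := geom_sum_mul w Q
    rw [hwQ, sub_self] at h6
    exact (mul_eq_zero.1 h6).resolve_right (sub_ne_zero.2 hwne)
  have h7 : ∀ t : ℕ, 1 - (w ^ t).re ≤ ‖w ^ t - 1‖ := by
    intro t
    have e1 : ‖w ^ t‖ = 1 := by rw [norm_pow, hw1, one_pow]
    have e2 := norm_sub_one_sq e1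
    have e3 : ‖w ^ t - 1‖ ≤ 2 := by
      refine (norm_sub_le _ _).trans ?_
      rw [e1, norm_one]
      norm_num
    nlinarith [norm_nonneg (w ^ t - 1)]
  have h8 : (Q : ℝ) ≤ ∑ t ∈ range Q, ‖w ^ t - 1‖ := by
    have e1 : ∑ t ∈ range Q, (1 - (w ^ t).re) = Q := by
      rw [Finset.sum_sub_distrib, Finset.sum_const, Finset.card_range, nsmul_eq_mul, mul_one,
        ← Complex.re_sum, hsum, Complex.zero_re, sub_zero]
    rw [← e1]
    exact Finset.sum_le_sum fun t _ => h7 t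
  have h9 : ∀ t ∈ range Q, ‖w ^ t - 1‖ / ‖w - 1‖ = ‖S Q t k‖ := by
    intro t ht
    have e1 := congrArg norm (S_geom t (Finset.mem_range.1 ht).le k)
    rw [← hw, norm_mul] at e1
    rw [← e1, mul_div_cancel_right₀ _ h5.ne']
  rw [← Finset.sum_congr rfl h9, ← Finset.sum_div]
  have h10 : (Q : ℝ) / (2 * Real.pi * |(k : ℝ)|) ≤ 1 / ‖w - 1‖ := by
    rw [div_le_div_iff₀ (by positivity) h5, one_mul]
    have := mul_le_mul_of_nonneg_left h4 hQ.le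
    have e : (Q : ℝ) * (2 * Real.pi * |(k : ℝ)| / Q) = 2 * Real.pi * |(k : ℝ)| := by
      field_simp
    rw [e] at this
    exact this
  calc (Q : ℝ) * (Q / (2 * Real.pi * |(k : ℝ)|)) ≤ Q * (1 / ‖w - 1‖) :=
        mul_le_mul_of_nonneg_left h10 hQ.le
    _ = Q / ‖w - 1‖ := by ring
    _ ≤ _ := div_le_div_of_nonneg_right h8 h5.le

/-- the orthogonality relation -/
theorem sum_E (k : ZMod Q) (hk : k ≠ 0) : ∑ x : ZMod Q, (ZMod.stdAddChar (k * x) : ℂ) = 0 := by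
  classical
  have h := AddChar.sum_mulShift k (ZMod.isPrimitive_stdAddChar Q)
  rw [if_neg hk] at h
  rw [← h.trans Nat.cast_zero]
  exact Finset.sum_congr rfl fun x _ => by rw [mul_comm]

end

end Pool.Agent.V8H61.LD
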