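import Pool.Agent.V8H55.LD.Stm

/-!
# Wrapped boxes
-/

set_option autoImplicit false

namespace Pool.Agent.V8H61.LD

open Finset Pool.Agent.V8H55.LD

section wrap

variable {Q : ℕ} [NeZero Q]

theorem val_sub' (x u : ZMod Q) :
    (x - u).val = if u.val ≤ x.val then x.val - u.val else x.val + Q - u.val := by
  have hu := ZMod.val_lt u
  have hx := ZMod.val_lt x
  split_ifs with h
  · exact ZMod.val_sub h
  · have e : x - u = ((x.val + Q - u.val : ℕ) : ZMod Q) := by
      rw [Nat.cast_sub (by omega), Nat.cast_add, ZMod.natCast_self, add_zero,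
        ZMod.natCast_zmod_val, ZMod.natCast_zmod_val]
    rw [e, ZMod.val_natCast, Nat.mod_eq_of_lt (by omega)]

/-- left ends of the two parts of a wrapped interval -/
def wlo (s : Bool) (u : ℕ) : ℕ := if s = true then 0 else u

/-- right ends of the two parts of a wrapped interval -/
def whi (Q : ℕ) (s : Bool) (u t : ℕ) : ℕ := if s = true then u + t - Q else min (u + t) Q

theorem ind_eq (x u : ZMod Q) (t : ℕ) (ht : t ≤ Q) :
    (if (x - u).val < t then (1 : ℝ) else 0) = ∑ s : Bool,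
      (if wlo s u.val ≤ x.val ∧ x.val < whi Q s u.val t then (1 : ℝ) else 0) := by
  have hu := ZMod.val_lt u
  have hx := ZMod.val_lt x
  rw [Fintype.sum_bool, val_sub']
  simp only [wlo, whi, if_true, Bool.false_eq_true, if_false]
  by_cases h : u.val ≤ x.val
  · rw [if_pos h, if_neg (c := 0 ≤ x.val ∧ x.val < u.val + t - Q) (by omega), zero_add]
    refine if_congr ?_ rfl rfl
    rw [lt_min_iff]
    omega
  · rw [if_neg h, if_neg (c := u.val ≤ x.val ∧ x.val < min (u.val + t) Q) (by omega), add_zero]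
    refine if_congr ?_ rfl rfl
    omega

theorem len_eq (u t : ℕ) (hu : u < Q) (ht : t ≤ Q) :
    (t : ℝ) / Q = ∑ s : Bool, ((whi Q s u t : ℝ) / Q - (wlo s u : ℝ) / Q) := by
  have h : ((whi Q true u t : ℤ) - wlo true u) + ((whi Q false u t : ℤ) - wlo false u) = t := by
    simp only [wlo, whi, if_true, Bool.false_eq_true, if_false]
    rcases le_total (u + t) Q with h | h
    · rw [min_eq_left h]
      omega
    · rw [min_eq_right h]
      omega
  rw [Fintype.sum_bool, ← sub_div, ← sub_div, ← add_div]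
  congr 1
  exact_mod_cast h.symm

end wrap

section box

variable {d N M : ℕ} [NeZero N] [NeZero M]

/-- the points of the lattice point set in `ZMod (N * M)` -/
def Xp (M : ℕ) (a : Fin d → Fin N) (n : ℕ) (i : Fin d) : ZMod (N * M) :=
  ((M * (n * (a i : ℕ)) : ℕ) : ZMod (N * M))

omit [NeZero N] [NeZero M] in
theorem Xp_val (a : Fin d → Fin N) (n : ℕ) (i : Fin d) :
    (Xp M a n i).val = M * ((n * (a i : ℕ)) % N) := by
  rw [Xp, ZMod.val_natCast, Nat.mul_comm N M, Nat.mul_mod_mul_left]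

theorem pt_eq (a : Fin d → Fin N) (n : ℕ) (i : Fin d) :
    pt a n i = ((Xp M a n i).val : ℝ) / ((N * M : ℕ) : ℝ) := by
  have hN : (N : ℝ) ≠ 0 := Nat.cast_ne_zero.2 (NeZero.ne N)
  have hM : (M : ℝ) ≠ 0 := Nat.cast_ne_zero.2 (NeZero.ne M)
  have e : (n : ℝ) * ((a i : ℕ) : ℝ) / (N : ℝ) = ((n * (a i : ℕ) : ℕ) : ℝ) / (N : ℝ) := by
    push_cast
    ring
  rw [pt, e, Int.fract_div_natCast_eq_div_natCast_mod, Xp_val]
  push_cast
  field_simp

/-- the error for wrapped boxes -/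
noncomputable def Fw (M : ℕ) (a : Fin d → Fin N) (t : Fin d → ℕ) (u : Fin d → ZMod (N * M)) : ℝ :=
  (1 / N) * ∑ n ∈ range N, ∏ i, (if (Xp M a n i - u i).val < t i then (1 : ℝ) else 0) -
    ∏ i, (t i : ℝ) / ((N * M : ℕ) : ℝ)

theorem Fw_eq (a : Fin d → Fin N) (t : Fin d → ℕ) (ht : ∀ i, t i ≤ N * M)
    (u : Fin d → ZMod (N * M)) : Fw M a t u = ∑ σ : Fin d → Bool,
      ((1 / N) * ∑ n ∈ range N, ∏ i, (if wlo (σ i) (u i).val ≤ (Xp M a n i).val ∧
          (Xp M a n i).val < whi (N * M) (σ i) (u i).val (t i) then (1 : ℝ) else 0) -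
        ∏ i, ((whi (N * M) (σ i) (u i).val (t i) : ℝ) / ((N * M : ℕ) : ℝ) -
          (wlo (σ i) (u i).val : ℝ) / ((N * M : ℕ) : ℝ))) := by
  have h1 : ∀ n, ∏ i, (if (Xp M a n i - u i).val < t i then (1 : ℝ) else 0) =
      ∑ σ : Fin d → Bool, ∏ i, (if wlo (σ i) (u i).val ≤ (Xp M a n i).val ∧
          (Xp M a n i).val < whi (N * M) (σ i) (u i).val (t i) then (1 : ℝ) else 0) := by
    intro n
    simp only [fun i => ind_eq (Xp M a n i) (u i) (t i) (ht i)]
    rw [Finset.prod_univ_sum, Fintype.piFinset_univ]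
  have h2 : ∏ i, (t i : ℝ) / ((N * M : ℕ) : ℝ) = ∑ σ : Fin d → Bool,
      ∏ i, ((whi (N * M) (σ i) (u i).val (t i) : ℝ) / ((N * M : ℕ) : ℝ) -
          (wlo (σ i) (u i).val : ℝ) / ((N * M : ℕ) : ℝ)) := by
    simp only [fun i => len_eq (Q := N * M) (u i).val (t i) (ZMod.val_lt _) (ht i)]
    rw [Finset.prod_univ_sum, Fintype.piFinset_univ]
  unfold Fw
  rw [h2]
  simp only [h1]
  rw [Finset.sum_comm, Finset.mul_sum, ← Finset.sum_sub_distrib]

theorem bdd (a : Fin d → Fin N) : BddAbove {x : ℝ | ∃ u v : Fin d → ℝ, IsBox u v ∧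
    x = |(cnt a u v : ℝ) / N - ∏ i, (v i - u i)|} := by
  refine ⟨2, ?_⟩
  rintro x ⟨u, v, h, rfl⟩
  have hN : (0 : ℝ) < N := Nat.cast_pos.2 (NeZero.pos N)
  have h1 : (cnt a u v : ℝ) ≤ N := by
    have h2 : cnt a u v ≤ N := by
      unfold cnt
      exact (Finset.card_filter_le _ _).trans (Finset.card_range N).le
    exact_mod_cast h2
  have h2 : (cnt a u v : ℝ) / N ≤ 1 := by
    rw [div_le_one hN]
    exact h1
  have h3 : 0 ≤ (cnt a u v : ℝ) / N := by positivity
  have h4 : 0 ≤ ∏ i, (v i - u i) := Finset.prod_nonneg fun i _ => sub_nonneg.2 (h i).2.1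
  have h5 : ∏ i, (v i - u i) ≤ 1 := Finset.prod_le_one (fun i _ => sub_nonneg.2 (h i).2.1)
    (fun i _ => by have := h i; linarith)
  rw [abs_le]
  constructor <;> linarith

theorem box_bound (a : Fin d → Fin N) (lo hi : Fin d → ℕ) (h1 : ∀ i, lo i ≤ hi i)
    (h2 : ∀ i, hi i ≤ N * M) :
    |(1 / (N : ℝ)) * ∑ n ∈ range N, ∏ i, (if lo i ≤ (Xp M a n i).val ∧
          (Xp M a n i).val < hi i then (1 : ℝ) else 0) -
        ∏ i, ((hi i : ℝ) / ((N * M : ℕ) : ℝ) - (lo i : ℝ) / ((N * M : ℕ) : ℝ))| ≤ disc a := by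
  have hQ : (0 : ℝ) < ((N * M : ℕ) : ℝ) := Nat.cast_pos.2 (NeZero.pos (N * M))
  refine le_csSup (bdd a) ⟨fun i => (lo i : ℝ) / ((N * M : ℕ) : ℝ),
    fun i => (hi i : ℝ) / ((N * M : ℕ) : ℝ), ?_, ?_⟩
  · intro i
    refine ⟨by positivity, ?_, ?_⟩
    · exact div_le_div_of_nonneg_right (Nat.cast_le.2 (h1 i)) hQ.le
    · rw [div_le_one hQ]
      exact Nat.cast_le.2 (h2 i)
  · congr 2
    unfold cnt
    simp only [fun n i => pt_eq (M := M) a n i, div_le_div_iff_of_pos_right hQ,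
      div_lt_div_iff_of_pos_right hQ, Nat.cast_le, Nat.cast_lt]
    simp only [Fintype.prod_boole]
    rw [Finset.card_filter, Nat.cast_sum, one_div, div_eq_inv_mul]
    congr 1
    refine Finset.sum_congr rfl fun n _ => ?_
    by_cases h : ∀ i : Fin d, lo i ≤ (Xp M a n i).val ∧ (Xp M a n i).val < hi i
    · rw [if_pos h, if_pos h, Nat.cast_one]
    · rw [if_neg h, if_neg h, Nat.cast_zero]

theorem Fw_bound (a : Fin d → Fin N) (t : Fin d → ℕ) (ht : ∀ i, t i ≤ N * M)
    (u : Fin d → ZMod (N * M)) : |Fw M a t u| ≤ 2 ^ d * disc a := by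
  rw [Fw_eq a t ht]
  refine (Finset.abs_sum_le_sum_abs _ _).trans ?_
  refine (Finset.sum_le_sum fun σ _ => box_bound a (fun i => wlo (σ i) (u i).val)
    (fun i => whi (N * M) (σ i) (u i).val (t i)) ?_ ?_).trans ?_
  · intro i
    have h1 := ZMod.val_lt (u i)
    simp only [wlo, whi]
    split_ifs
    · omega
    · rw [le_min_iff]
      omega
  · intro i
    have h1 := ZMod.val_lt (u i)
    have h2 := ht i
    simp only [whi]
    split_ifs
    · omega
    · exact min_le_right _ _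
  · rw [Finset.sum_const, Finset.card_univ, Fintype.card_fun, Fintype.card_bool, Fintype.card_fin,
      nsmul_eq_mul]
    push_cast
    exact le_rfl

end box

end Pool.Agent.V8H61.LD
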