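import Pool.Agent.V8H61.LD.Ria
import Pool.Agent.V8H61.LD.Rib

/-!
# Fourier coefficients and lacunary sums
-/

set_option autoImplicit false

namespace Pool.Agent.V8H61.LD

open Finset Pool.Agent.V8H55.LD

/-! ### lacunary sums -/

/-- sums of lacunary positive numbers -/
theorem lac_sum {α : Type} [DecidableEq α] (x : α → ℤ) : ∀ (n : ℕ) (A : Finset α), A.card = n →
    (∀ m ∈ A, 0 ≤ x m) → (∀ m ∈ A, ∀ l ∈ A, m ≠ l → 3 * x m ≤ x l ∨ 3 * x l ≤ x m) →
    ∀ y : ℤ, 0 ≤ y → (∀ m ∈ A, 3 * x m ≤ y) → 2 * ∑ m ∈ A, x m ≤ y := by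
  intro n
  induction n with
  | zero =>
    intro A hA _ _ y hy _
    rw [Finset.card_eq_zero] at hA
    rw [hA]
    simpa using hy
  | succ n ih =>
    intro A hA h0 hsep y hy hle
    have hne : A.Nonempty := Finset.card_pos.1 (by omega)
    obtain ⟨m, hm, hmax⟩ := Finset.exists_max_image A x hne
    rw [← Finset.sum_erase_add A x hm]
    have h1 := ih (A.erase m) (by rw [Finset.card_erase_of_mem hm, hA]; rfl)
      (fun l hl => h0 l (Finset.mem_of_mem_erase hl))
      (fun l hl l' hl' hne => hsep l (Finset.mem_of_mem_erase hl) l' (Finset.mem_of_mem_erase hl') hne)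
      (x m) (h0 m hm) ?_
    · have h2 := hle m hm
      linarith
    · intro l hl
      have hl' := Finset.mem_of_mem_erase hl
      rcases hsep l hl' m hm (Finset.ne_of_mem_erase hl) with h | h
      · exact h
      · have h3 := hmax l hl'
        have h4 := h0 l hl'
        have h5 := h0 m hm
        linarith

/-- a signed sum of lacunary numbers is at least half of the largest one -/
theorem lac_lo {α : Type} [Fintype α] [DecidableEq α] (x : α → ℤ)
    (hsep : ∀ m l, m ≠ l → 3 * |x m| ≤ |x l| ∨ 3 * |x l| ≤ |x m|) (ε : α → SignType)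
    {m : α} (hm : ε m ≠ 0) : |x m| ≤ 2 * |∑ l, (ε l : ℤ) * x l| := by
  obtain ⟨A, hA⟩ : ∃ A : Finset α, A = univ.filter fun l => ε l ≠ 0 := ⟨_, rfl⟩
  have hmem : ∀ l, l ∈ A ↔ ε l ≠ 0 := fun l => by rw [hA]; simp
  obtain ⟨k, hk, hmax⟩ := Finset.exists_max_image A (fun l => |x l|) ⟨m, (hmem m).2 hm⟩
  have h1 : ∑ l, (ε l : ℤ) * x l = ∑ l ∈ A, (ε l : ℤ) * x l := by
    symm
    refine Finset.sum_subset (Finset.subset_univ _) fun l _ hl => ?_
    rw [hmem, not_not] at hl
    rw [hl]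
    simp
  have habs : ∀ l ∈ A, |(ε l : ℤ) * x l| = |x l| := by
    intro l hl
    rw [hmem] at hl
    rcases hs : ε l with _ | _ | _
    · exact absurd hs hl
    · simp
    · simp
  rw [h1, ← Finset.sum_erase_add A _ hk]
  have h2 : 2 * ∑ l ∈ A.erase k, |x l| ≤ |x k| := by
    refine lac_sum (fun l => |x l|) _ (A.erase k) rfl (fun l _ => abs_nonneg _)
      (fun l _ l' _ hne => hsep l l' hne) _ (abs_nonneg _) ?_
    intro l hl
    rcases hsep l k (Finset.ne_of_mem_erase hl) with h | h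
    · exact h
    · have h3 := hmax l (Finset.mem_of_mem_erase hl)
      have h4 := abs_nonneg (x l)
      linarith
  have h3 : |∑ l ∈ A.erase k, (ε l : ℤ) * x l| ≤ ∑ l ∈ A.erase k, |x l| := by
    refine (Finset.abs_sum_le_sum_abs _ _).trans (le_of_eq (Finset.sum_congr rfl fun l hl => ?_))
    exact habs l (Finset.mem_of_mem_erase hl)
  have h4 := hmax m ((hmem m).2 hm)
  have h5 := habs k hk
  have h6 := abs_sub_abs_le_abs_sub ((ε k : ℤ) * x k) (-∑ l ∈ A.erase k, (ε l : ℤ) * x l)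
  rw [abs_neg, sub_neg_eq_add, h5, add_comm ((ε k : ℤ) * x k)] at h6
  linarith

/-! ### the Fourier coefficients -/

section coef

variable {d N M : ℕ} [NeZero N] [NeZero M]

/-- the character `u ↦ ∏ e(k_i u_i)` -/
noncomputable def ch (Q : ℕ) [NeZero Q] (k : Fin d → ℤ) (u : Fin d → ZMod Q) : ℂ :=
  ∏ i, (ZMod.stdAddChar ((k i : ZMod Q) * u i) : ℂ)

theorem sum_prod (Q : ℕ) [NeZero Q] (f : Fin d → ZMod Q → ℂ) :
    ∑ u : Fin d → ZMod Q, ∏ i, f i (u i) = ∏ i, ∑ y, f i y := by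
  rw [Finset.prod_univ_sum, Fintype.piFinset_univ]

/-- the coefficient of the wrapped interval -/
theorem sum_ind (Q : ℕ) [NeZero Q] (x : ZMod Q) (t : ℕ) (k : ℤ) :
    ∑ u : ZMod Q, (((if (x - u).val < t then (1 : ℝ) else 0 : ℝ) : ℂ) *
      (ZMod.stdAddChar ((k : ZMod Q) * u) : ℂ)) = ZMod.stdAddChar ((k : ZMod Q) * x) * S Q t k := by
  rw [← Equiv.sum_comp (Equiv.subLeft x) (fun u : ZMod Q =>
    (((if (x - u).val < t then (1 : ℝ) else 0 : ℝ) : ℂ) *
      (ZMod.stdAddChar ((k : ZMod Q) * u) : ℂ)))]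
  unfold S
  rw [Finset.mul_sum]
  refine Finset.sum_congr rfl fun y _ => ?_
  have e : x - (Equiv.subLeft x) y = y := by
    rw [Equiv.subLeft_apply]
    ring
  rw [e]
  split_ifs
  · rw [Equiv.subLeft_apply, Complex.ofReal_one, one_mul, ← AddChar.map_add_eq_mul]
    congr 1
    ring
  · rw [Complex.ofReal_zero, zero_mul, mul_zero]

/-- the phases of a dual vector are trivial -/
theorem phase (a : Fin d → Fin N) (k : Fin d → ℤ) (hk : Dual a k) (n : ℕ) :
    ch (N * M) k (fun i => Xp M a n i) = 1 := by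
  obtain ⟨c, hc⟩ := hk
  unfold ch
  have hsum : ∀ (s : Finset (Fin d)) (f : Fin d → ZMod (N * M)),
      (∏ i ∈ s, (ZMod.stdAddChar (f i) : ℂ)) = ZMod.stdAddChar (∑ i ∈ s, f i) := by
    intro s f
    induction s using Finset.induction_on with
    | empty => simp
    | insert i s hi ih =>
      rw [Finset.prod_insert hi, Finset.sum_insert hi, AddChar.map_add_eq_mul, ih]
  rw [hsum]
  have e : ∑ i, ((k i : ZMod (N * M)) * Xp M a n i) = 0 := by
    have e1 : ∑ i, ((k i : ZMod (N * M)) * Xp M a n i) =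
        ((M * n * ∑ i, k i * ((a i : ℕ) : ℤ) : ℤ) : ZMod (N * M)) := by
      rw [Int.cast_mul, Int.cast_sum, Finset.mul_sum]
      refine Finset.sum_congr rfl fun i _ => ?_
      rw [Xp]
      push_cast
      ring
    rw [e1, hc]
    have e2 : ((M * n * (N * c) : ℤ) : ZMod (N * M)) = ((N * M : ℕ) : ZMod (N * M)) * (n * c) := by
      push_cast
      ring
    rw [e2, ZMod.natCast_self, zero_mul]
  rw [e, AddChar.map_zero_eq_one]

/-- the Fourier coefficients of the error -/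
theorem coef (a : Fin d → Fin N) (t : Fin d → ℕ) (k : Fin d → ℤ) (hk : Dual a k)
    (i0 : Fin d) (hi0 : (k i0 : ZMod (N * M)) ≠ 0) :
    ∑ u : Fin d → ZMod (N * M), ((Fw M a t u : ℝ) : ℂ) * ch (N * M) k u = ∏ i, S (N * M) (t i) (k i) := by
  have hN : (N : ℂ) ≠ 0 := Nat.cast_ne_zero.2 (NeZero.ne N)
  have h1 : ∀ n, ∑ u : Fin d → ZMod (N * M),
      ∏ i, ((((if (Xp M a n i - u i).val < t i then (1 : ℝ) else 0 : ℝ) : ℂ) *
      (ZMod.stdAddChar ((k i : ZMod (N * M)) * u i) : ℂ))) = ∏ i, S (N * M) (t i) (k i) := by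
    intro n
    rw [sum_prod (N * M) (fun i y => (((if (Xp M a n i - y).val < t i then (1 : ℝ) else 0 : ℝ) : ℂ) *
      (ZMod.stdAddChar ((k i : ZMod (N * M)) * y) : ℂ)))]
    simp only [sum_ind]
    rw [Finset.prod_mul_distrib]
    have := phase (M := M) a k hk n
    unfold ch at this
    rw [this, one_mul]
  have h2 : ∑ u : Fin d → ZMod (N * M), ch (N * M) k u = 0 := by
    unfold ch
    rw [sum_prod (N * M) (fun i y => (ZMod.stdAddChar ((k i : ZMod (N * M)) * y) : ℂ))]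
    exact Finset.prod_eq_zero (Finset.mem_univ i0) (sum_E _ hi0)
  have h3 : ∀ u : Fin d → ZMod (N * M), ((Fw M a t u : ℝ) : ℂ) * ch (N * M) k u =
      (1 / (N : ℂ)) * ∑ n ∈ range N, ∏ i,
        ((((if (Xp M a n i - u i).val < t i then (1 : ℝ) else 0 : ℝ) : ℂ) *
        (ZMod.stdAddChar ((k i : ZMod (N * M)) * u i) : ℂ))) -
      ((∏ i, (t i : ℝ) / ((N * M : ℕ) : ℝ) : ℝ) : ℂ) * ch (N * M) k u := by
    intro u
    unfold Fw ch
    simp only [Finset.prod_mul_distrib]
    rw [← Finset.sum_mul, Complex.ofReal_sub, Complex.ofReal_mul, Complex.ofReal_sum, sub_mul]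
    simp only [Complex.ofReal_prod, Complex.ofReal_div, Complex.ofReal_one, Complex.ofReal_natCast]
    ring
  simp only [h3]
  rw [Finset.sum_sub_distrib, ← Finset.mul_sum, ← Finset.mul_sum, h2, mul_zero, sub_zero,
    Finset.sum_comm]
  simp only [h1]
  rw [Finset.sum_const, Finset.card_range, nsmul_eq_mul]
  field_simp

theorem coef_zero (a : Fin d → Fin N) (t : Fin d → ℕ) (ht : ∀ i, t i ≤ N * M) :
    ∑ u : Fin d → ZMod (N * M), ((Fw M a t u : ℝ) : ℂ) = 0 := by
  have hN : (N : ℂ) ≠ 0 := Nat.cast_ne_zero.2 (NeZero.ne N)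
  have hQ : ((N * M : ℕ) : ℂ) ≠ 0 := Nat.cast_ne_zero.2 (NeZero.ne (N * M))
  have h1 : ∀ n, ∑ u : Fin d → ZMod (N * M),
      ∏ i, (((if (Xp M a n i - u i).val < t i then (1 : ℝ) else 0 : ℝ) : ℂ)) = ∏ i, (t i : ℂ) := by
    intro n
    rw [sum_prod (N * M) (fun i y => (((if (Xp M a n i - y).val < t i then (1 : ℝ) else 0 : ℝ) : ℂ)))]
    refine Finset.prod_congr rfl fun i _ => ?_
    have h := sum_ind (N * M) (Xp M a n i) (t i) 0
    simp only [Int.cast_zero, zero_mul, AddChar.map_zero_eq_one, mul_one, one_mul] at h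
    rw [h, S_zero _ (ht i)]
  have h3 : ∀ u : Fin d → ZMod (N * M), ((Fw M a t u : ℝ) : ℂ) =
      (1 / (N : ℂ)) * ∑ n ∈ range N, ∏ i,
        ((((if (Xp M a n i - u i).val < t i then (1 : ℝ) else 0 : ℝ) : ℂ))) -
      ((∏ i, (t i : ℝ) / ((N * M : ℕ) : ℝ) : ℝ) : ℂ) := by
    intro u
    unfold Fw
    rw [Complex.ofReal_sub, Complex.ofReal_mul, Complex.ofReal_sum]
    simp only [Complex.ofReal_prod, Complex.ofReal_div, Complex.ofReal_one, Complex.ofReal_natCast]
  simp only [h3]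
  rw [Finset.sum_sub_distrib, ← Finset.mul_sum, Finset.sum_comm]
  simp only [h1]
  rw [Finset.sum_const, Finset.card_range, nsmul_eq_mul, Finset.sum_const, Finset.card_univ,
    Fintype.card_fun, ZMod.card, Fintype.card_fin, nsmul_eq_mul, Complex.ofReal_prod]
  simp only [Complex.ofReal_div, Complex.ofReal_natCast]
  rw [Finset.prod_div_distrib, Finset.prod_const, Finset.card_univ, Fintype.card_fin]
  push_cast
  push_cast at hQ
  field_simp
  ring

end coef

end Pool.Agent.V8H61.LD
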